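import Pool.Agent.helper36.PP.SpecC

/-! # Project pp (MP_70a088_an): module EV2: the loss of radius at a critical value -/

set_option autoImplicit false

open Complex Metric Set Filter Topology MeasureTheory MPS

noncomputable section

namespace PPS

theorem EV2_anti {f : Polynomial ℂ} {y ρ₁ : ℝ} {χ : ℂ → ℂ} {G1 : ℕ → ℂ → ℂ} {ps : ℕ} {T : ℕ → ℝ}
    {G : ℕ → ℂ → ℂ} {Q : ℕ} (h : Sys2 f y ρ₁ χ G1 ps T G Q) {q q' : ℕ} (hqq : q ≤ q')
    (hq : q' ≤ Q) : T q' ≤ T q := by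
  induction q', hqq using Nat.le_induction with
  | base => exact le_rfl
  | succ m hm ih => exact (h.anti m (by omega)).trans (ih (by omega))

theorem EV2_res {f : Polynomial ℂ} {y ρ₁ : ℝ} {χ : ℂ → ℂ} {G1 : ℕ → ℂ → ℂ} {ps : ℕ} {T : ℕ → ℝ}
    {G : ℕ → ℂ → ℂ} {Q : ℕ} (h : Sys2 f y ρ₁ χ G1 ps T G (Q + 1)) :
    Sys2 f y ρ₁ χ G1 ps T G Q where
  t0 := h.t0
  anti := fun q hq => h.anti q (by omega)
  low := fun q hq => h.low q (by omega)
  g0 := h.g0
  diff := fun q hq => h.diff q (by omega)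
  rel := fun q hq => h.rel q (by omega)
  val := fun q hq => h.val q (by omega)
  disj := fun q h1 hq => h.disj q h1 (by omega)

theorem EV2_eps {n k : ℕ} [NeZero k] {f : Polynomial ℂ} {b g : ZMod k → ℂ} {ψ : ZMod k → ℂ → ℂ}
    {ra R ε : ℝ} (h : SU n k f b g ψ ra R ε) : 0 ≤ ε ∧
      2 * Real.pi * Real.log ‖rho f b‖ + 3 * ∫ z in ball (0 : ℂ) R, ‖er f b g z‖ ≤ ε ∧
      ∫ z in ball (0 : ℂ) R, ‖er f b g z‖ ≤ ε := by
  have h1 : 0 ≤ ∫ z in ball (0 : ℂ) R, ‖er f b g z‖ := integral_nonneg fun z => norm_nonneg _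
  have h2 : 0 ≤ Real.log ‖rho f b‖ := Real.log_nonneg h.rho1.le
  have h3 : 0 ≤ 2 * Real.pi * Real.log ‖rho f b‖ := by positivity
  have h4 := h.hE
  refine ⟨?_, ?_, ?_⟩ <;> linarith

theorem EV2_ofReal_sum {ι : Type} (s : Finset ι) (u : ι → ℝ) :
    ENNReal.ofReal (∑ i ∈ s, u i) ≤ ∑ i ∈ s, ENNReal.ofReal (u i) := by
  classical
  induction s using Finset.induction_on with
  | empty => simp
  | insert a s ha ih =>
    rw [Finset.sum_insert ha, Finset.sum_insert ha]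
    exact ENNReal.ofReal_add_le.trans (add_le_add le_rfl ih)

/-- Measurability of the pulled back densities. -/
theorem EV2_meas (hMI : MI_stmt) {k : ℕ} [NeZero k] {f : Polynomial ℂ} (hf : 1 ≤ f.natDegree)
    {b g : ZMod k → ℂ} {G : ℂ → ℂ} {Ω : Set ℂ} (hΩ : IsOpen Ω) (hG : DifferentiableOn ℂ G Ω) :
    AEMeasurable (fun w => ENNReal.ofReal (dens f b g G w)) (volume.restrict Ω) := by
  obtain ⟨-, -, her, hDf, -⟩ := hMI k f b g hf
  have hGm : AEMeasurable G (volume.restrict Ω) :=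
    (hG.continuousOn.aestronglyMeasurable hΩ.measurableSet).aemeasurable
  have h1 : AEMeasurable (fun w => Df f b g (G w)) (volume.restrict Ω) :=
    hDf.comp_aemeasurable hGm
  have h2 : AEMeasurable (fun w => er f b g (G w)) (volume.restrict Ω) :=
    her.comp_aemeasurable hGm
  have h3 : Measurable (deriv G) := measurable_deriv G
  unfold dens
  exact ((h1.add (h2.norm.const_mul 2)).mul (h3.norm.pow_const 2).aemeasurable).ennreal_ofReal

theorem EV2 (hBDY : BDY_stmt) (hEVT : EVT_stmt) (hLEI : LEI_stmt) (hLEA : LEA_stmt)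
    (hLV : LV_stmt) (hMA : MA_stmt) (hMI : MI_stmt) (hP2A : P2A_stmt) (hPT2 : PT2_stmt) :
    EV2_stmt := by
  intro n k _ f b g ψ ra R ε y ρ₁ χ G1 ps T G Q H hε r hrT hdis hbr
  by_contra hcon
  rw [not_lt] at hcon
  have su := H.su2.su
  have hn2 : 2 ≤ n := su.hn
  have hf1 : 1 ≤ f.natDegree := by rw [su.hdeg]; omega
  have hn0 : (0 : ℝ) < n := by exact_mod_cast (by omega : 0 < n)
  have hρ0 : 0 < ρ₁ := H.su2.r0
  obtain ⟨hε0, hε3, hεe⟩ := EV2_eps su
  set x : ℂ := ctr y ρ₁ with hx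
  set d : ℝ := ρ₁ / (32 * n) with hd
  have hd0 : 0 < d := by positivity
  have hTlow : ρ₁ / 8 ≤ T (Q + 1) := H.sys.low (Q + 1) le_rfl
  have hT0 : 0 < T (Q + 1) := by linarith
  have hd8 : d ≤ ρ₁ / 8 := by
    rw [hd]
    apply div_le_div_of_nonneg_left hρ0.le (by norm_num)
    have : (2 : ℝ) ≤ n := by exact_mod_cast hn2
    linarith
  have hTr : T (Q + 1) < r := by linarith
  have HQ : H2 n k f b g ψ ra R ε y ρ₁ χ G1 ps T G Q :=
    ⟨H.su2, EV2_res H.sys, by have := H.hQ; omega⟩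
  obtain ⟨-, hinj, hmap, hlev, -, hmult, -⟩ := hP2A n k f b g ψ ra R ε y ρ₁ χ G1 ps T G Q HQ
  obtain ⟨-, -, -, hlev1, -, -, -⟩ := hP2A n k f b g ψ ra R ε y ρ₁ χ G1 ps T G (Q + 1) H
  have hLSQ := hlev Q le_rfl
  have hLSQ1 := hlev1 (Q + 1) le_rfl
  have hrb : ball x r ⊆ ball x (T Q) := ball_subset_ball hrT
  have hbq : ∀ q ≤ Q, ball x r ⊆ ball x (T q) := fun q hq =>
    hrb.trans (ball_subset_ball (EV2_anti HQ.sys hq le_rfl))
  -- the end of the branch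
  obtain ⟨ws, ys, hws, hys, hlim⟩ := hBDY f (G Q) (G (Q + 1)) x (T (Q + 1)) r hf1 hT0 hTr
    ((H.sys.diff Q (by omega)).mono hrb) (H.sys.diff (Q + 1) le_rfl)
    (fun w hw => H.sys.rel Q (by omega) w hw) (by
      intro r' h1 h2
      have h3 : G (Q + 1) x = GW G1 (Q + 1) x := H.sys.val (Q + 1) le_rfl
      rw [h3]
      exact hbr r' h1 h2)
  have hbw : ball ws d ⊆ ball x r := by
    refine ball_subset_ball' ?_
    rw [dist_eq_norm, hws]
    linarith
  have hbwT : ball ws d ⊆ ball x (T Q) := hbw.trans hrb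
  -- the branch sums
  obtain ⟨-, hLV2, hLV3, -, -⟩ := hLV k f b g G (ball x (T Q)) Q hf1 su.cyc isOpen_ball hLSQ
  obtain ⟨hMA1, hMA2⟩ := hMA n k f b g R hn2 su.hdeg su.cyc su.rho1 su.posR
    (fun j => (su.hra j).trans_lt su.hR) su.inv (Q + 1) 2 (fun _ => ball x r) G
    (fun q hq => ⟨isOpen_ball, (hLSQ.diff q (by omega)).mono hrb,
      (hinj q (by omega)).mono (hbq q (by omega)),
      (hmap q (by omega)).mono_left (hbq q (by omega))⟩)
    (fun z F hF => hmult r hrT hdis z F fun q hq => ⟨by have := (hF q hq).1; omega, (hF q hq).2⟩)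
  have hbranch : ∫⁻ w in ball ws d, ENNReal.ofReal
      ((pre f (G Q w)).map fun y => ‖brv f b g (G Q) w y‖ - (brv f b g (G Q) w y).re).sum ≤
        ENNReal.ofReal (2 * ε) := by
    have h1 : ∫⁻ w in ball ws d, ENNReal.ofReal
        ((pre f (G Q w)).map fun y => ‖brv f b g (G Q) w y‖ - (brv f b g (G Q) w y).re).sum ≤
        ∫⁻ w in ball ws d, ∑ q ∈ Finset.range (Q + 1), ENNReal.ofReal (dens f b g (G q) w) := by
      refine lintegral_mono_ae ?_
      rw [ae_restrict_iff' measurableSet_ball]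
      refine Filter.Eventually.of_forall fun w hwb => ?_
      refine (ENNReal.ofReal_le_ofReal (hLV2 Q le_rfl w (hbwT hwb))).trans ?_
      exact EV2_ofReal_sum _ _
    refine h1.trans ?_
    rw [lintegral_finsetSum' _ fun q hq => EV2_meas hMI hf1 isOpen_ball
      ((hLSQ.diff q (by have := Finset.mem_range.1 hq; omega)).mono hbwT)]
    calc ∑ q ∈ Finset.range (Q + 1), ∫⁻ w in ball ws d, ENNReal.ofReal (dens f b g (G q) w)
        ≤ ∑ q ∈ Finset.range (Q + 1), ∫⁻ w in ball x r, ENNReal.ofReal (dens f b g (G q) w) :=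
          Finset.sum_le_sum fun q _ => lintegral_mono_set hbw
      _ ≤ ((2 : ℕ) : ENNReal) * ENNReal.ofReal (2 * Real.pi * Real.log ‖rho f b‖ +
            3 * ∫ z in ball (0 : ℂ) R, ‖er f b g z‖) := hMA1
      _ ≤ ((2 : ℕ) : ENNReal) * ENNReal.ofReal ε := by gcongr
      _ = ENNReal.ofReal (2 * ε) := by
          rw [ENNReal.ofReal_mul (by norm_num)]
          norm_num
  have herr : ∫⁻ w in ball ws d, ENNReal.ofReal (‖er f b g (G Q w)‖ * ‖deriv (G Q) w‖ ^ 2) ≤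
      ENNReal.ofReal (2 * ε) := by
    calc ∫⁻ w in ball ws d, ENNReal.ofReal (‖er f b g (G Q w)‖ * ‖deriv (G Q) w‖ ^ 2)
        ≤ ∫⁻ w in ball x r, ENNReal.ofReal (‖er f b g (G Q w)‖ * ‖deriv (G Q) w‖ ^ 2) :=
          lintegral_mono_set hbw
      _ ≤ ∑ q ∈ Finset.range (Q + 1), ∫⁻ w in ball x r,
            ENNReal.ofReal (‖er f b g (G q w)‖ * ‖deriv (G q) w‖ ^ 2) :=
          Finset.single_le_sum (f := fun q => ∫⁻ w in ball x r,
            ENNReal.ofReal (‖er f b g (G q w)‖ * ‖deriv (G q) w‖ ^ 2))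
            (fun q _ => zero_le) (Finset.mem_range.2 (by omega))
      _ ≤ ((2 : ℕ) : ENNReal) * ENNReal.ofReal (∫ z in ball (0 : ℂ) R, ‖er f b g z‖) := hMA2
      _ ≤ ((2 : ℕ) : ENNReal) * ENNReal.ofReal ε := by gcongr
      _ = ENNReal.ofReal (2 * ε) := by
          rw [ENNReal.ofReal_mul (by norm_num)]
          norm_num
  obtain ⟨hLEA1, -⟩ := hLEA k f b g G (ball x (T Q)) Q su.cyc isOpen_ball hLSQ
  obtain ⟨t, ht1, ht2, hevt⟩ := hEVT n k f b g (G Q) (G (Q + 1)) x ws ys (T (Q + 1)) d (2 * ε) hn2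
    su.hdeg su.cyc hd0 (by linarith) (by linarith) hws
    ((hLSQ.diff Q le_rfl).mono hbwT) ((hinj Q le_rfl).mono hbwT)
    (fun w hw j => hLEA1 Q le_rfl w (hbwT hw) j) (H.sys.diff (Q + 1) le_rfl)
    (fun w hw => H.sys.rel Q (by omega) w hw.1) hys hlim hbranch herr
  have ht0 : 0 < t := lt_of_lt_of_le (by positivity) ht1
  set w₀ : ℂ := ws + ((t / (2 * T (Q + 1)) : ℝ) : ℂ) * (x - ws) with hw₀
  have hevt' := hevt w₀ rfl
  have hnorm : ‖w₀ - x‖ + t / 2 ≤ T (Q + 1) := by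
    have h1 : w₀ - x = ((1 - t / (2 * T (Q + 1)) : ℝ) : ℂ) * (ws - x) := by
      rw [hw₀]
      push_cast
      ring
    have h2 : 0 ≤ 1 - t / (2 * T (Q + 1)) := by
      rw [sub_nonneg, div_le_one (by positivity)]
      linarith
    rw [h1, norm_mul, hws, Complex.norm_real, Real.norm_of_nonneg h2]
    have h3 : (1 - t / (2 * T (Q + 1))) * T (Q + 1) = T (Q + 1) - t / 2 := by
      field_simp
    rw [h3]
    linarith
  have hw₀b : w₀ ∈ ball x (T (Q + 1)) := by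
    rw [mem_ball, dist_eq_norm]
    linarith
  obtain ⟨hsum, htau⟩ := hPT2 n k f b g ψ ra R ε y ρ₁ χ G1 ps T G (Q + 1) H (Q + 1) (by omega)
    le_rfl w₀ (t / 2) (by linarith) hnorm
  obtain ⟨-, hLEI2, -, -⟩ := hLEI k f b g G (ball x (T (Q + 1))) (Q + 1) hf1 su.cyc isOpen_ball hLSQ1
  have hbrv := (hLEI2 Q (by omega) w₀ hw₀b).2
  rw [hbrv] at hevt'
  set S : ℝ := ∑ q ∈ Finset.Icc 1 (Q + 1), lev b g G q w₀ with hS
  have hlevS : ‖deriv (G Q) w₀ ^ 2 * BB b g (G Q w₀) - tau b g G (Q + 1) w₀‖ ≤ S := by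
    have h1 : lev b g G (Q + 1) w₀ ≤ S :=
      Finset.single_le_sum (f := fun q => lev b g G q w₀)
        (fun q _ => norm_nonneg _) (Finset.mem_Icc.2 ⟨by omega, le_rfl⟩)
    exact h1
  set e : ℝ := ε / t ^ 2 with he
  have he0 : 0 ≤ e := by positivity
  have hS2 : S ≤ 520 * e := by
    have h1 : 130 * ε / (t / 2) ^ 2 = 520 * e := by
      rw [he]
      field_simp
      ring
    linarith
  have hesmall : e ≤ 1 / 4 ^ 35 := by
    have h1 : d ^ 2 / (4 ^ n) ^ 2 ≤ t ^ 2 := by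
      rw [← div_pow]
      exact pow_le_pow_left₀ (by positivity) ht1 2
    have h2 : ρ₁ ^ 2 / cn n = (1 / 4 ^ 35) * (d ^ 2 / (4 ^ n) ^ 2) := by
      rw [hd]
      unfold cn
      have h3 : (4 : ℝ) ^ (40 + 2 * n) = 4 ^ 35 * 1024 * (4 ^ n) ^ 2 := by
        rw [pow_add, pow_mul, ← pow_mul, ← pow_mul, mul_comm n 2]
        norm_num
      rw [h3]
      field_simp
      ring
    rw [he, div_le_iff₀ (by positivity)]
    calc ε ≤ (1 / 4 ^ 35) * (d ^ 2 / (4 ^ n) ^ 2) := by rw [← h2]; exact hε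
      _ ≤ (1 / 4 ^ 35) * t ^ 2 := by gcongr
  have hlow : 1 - 520 * e ≤ ‖tau b g G (Q + 1) w₀‖ := by
    have h1 := norm_sub_norm_le (1 : ℂ) (1 - tau b g G (Q + 1) w₀)
    rw [norm_one, sub_sub_cancel, norm_sub_rev] at h1
    linarith
  have hup : ‖tau b g G (Q + 1) w₀‖ ≤ 4 ^ 21 * (520 * e + 200 * e) := by
    refine hevt'.trans ?_
    have h1 : 100 * (2 * ε) / t ^ 2 = 200 * e := by
      rw [he]
      ring
    rw [h1]
    have h2 : ‖deriv (G Q) w₀ ^ 2 * BB b g (G Q w₀) - tau b g G (Q + 1) w₀‖ + 200 * e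
        ≤ 520 * e + 200 * e := by linarith
    exact mul_le_mul_of_nonneg_left h2 (by positivity)
  have hfin : (4 : ℝ) ^ 21 * (520 * e + 200 * e) + 520 * e < 1 := by
    have h1 : (4 : ℝ) ^ 21 * (520 * e + 200 * e) + 520 * e = (4 ^ 21 * 720 + 520) * e := by ring
    rw [h1]
    calc ((4 : ℝ) ^ 21 * 720 + 520) * e ≤ (4 ^ 21 * 720 + 520) * (1 / 4 ^ 35) := by gcongr
      _ < 1 := by norm_num
  linarith

end PPS
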