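import Pool.Agent.helper60.PP.REL

/-! # Project pp (MP_70a088_an): module LNZ: a form whose Cauchy transform vanishes at the critical
values is zero -/

set_option autoImplicit false

open Complex Metric Set Filter Topology MeasureTheory MPS MQ Pool.Agent.helper98.ILF

noncomputable section

namespace PPS

theorem LNZ (hIP : IP_stmt) (hRAN : RAN_stmt) (hREL : REL_stmt) (hJUL : JUL_stmt)
    (hCTA : CTA_stmt) (hPRB : PRB_stmt) (hMAXP : NLF.MAXP_stmt) : LNZ_stmt := by
  intro f A μ hn hLF h0
  have hn1 : 1 ≤ f.natDegree := by omega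
  obtain ⟨hint, -, hcont, hdecay, hhol, hzer⟩ := hCTA μ A hLF.meas hLF.bd hLF.supp
  obtain ⟨-, -, -, -, hfin, -⟩ := hPRB f hn1
  have hset : {y : ℂ | f.eval y ∈ (univ : Set ℂ)} = univ := by
    ext y
    simp
  -- integrals against polynomials of small degree vanish
  have hpoly : ∀ Q : Polynomial ℂ, Q.natDegree + 2 ≤ f.natDegree →
      ∫ z : ℂ, μ z * Q.eval z = 0 := by
    intro Q hQ
    obtain ⟨s, hs⟩ := hRAN f Q hfin.toFinset hn hQ (fun v => hfin.mem_toFinset)
    obtain ⟨-, h2⟩ := hIP f A μ hn1 hLF (fun y => Q.eval y) univ Q.continuous.measurable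
      MeasurableSet.univ (by
        rw [hset, integrableOn_univ]
        exact REL_int hLF Q)
    rw [hset, setIntegral_univ, setIntegral_univ] at h2
    have h3 : (fun z => μ z * TT f (fun y => Q.eval y) z) =ᵐ[volume]
        fun z => ∑ v ∈ hfin.toFinset, s v * (μ z / (z - v)) := by
      filter_upwards [REL_cv hfin] with z hz
      rw [hs z (fun h => hz (hfin.mem_toFinset.1 h)), Finset.mul_sum]
      refine Finset.sum_congr rfl fun v _ => ?_
      ring
    rw [← h2, integral_congr_ae h3, integral_finsetSum _ (fun v _ => (hint v).const_mul _)]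
    refine Finset.sum_eq_zero fun v hv => ?_
    rw [integral_const_mul]
    have h4 : ∫ z : ℂ, μ z / (z - v) = 0 := h0 v (hfin.mem_toFinset.1 hv)
    rw [h4, mul_zero]
  have hrel : ∀ b, fd f b * NLF.CT μ b = NLF.CT μ (f.eval b) := by
    intro b
    have hdeg : (f.derivative /ₘ (Polynomial.X - Polynomial.C b)).natDegree + 2
        ≤ f.natDegree := by
      have h1 := Polynomial.natDegree_divByMonic f.derivative (Polynomial.monic_X_sub_C b)
      have h2 := Polynomial.natDegree_derivative_le f
      rw [Polynomial.natDegree_X_sub_C] at h1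
      omega
    have h1 := hREL f A μ hn hLF b
    rw [hpoly _ hdeg, sub_zero] at h1
    exact h1
  have hF : IsOpen (fatouSet (fun z : ℂ => f.eval z)) := isOpen_interior
  have hJ : IsClosed (juliaSet (fun z : ℂ => f.eval z)) := hF.isClosed_compl
  have hzero : ∀ z ∈ (juliaSet (fun z : ℂ => f.eval z))ᶜ, μ z = 0 := by
    intro z hz
    by_contra h
    exact hz (hLF.julia z h)
  have hd := hhol (juliaSet (fun z : ℂ => f.eval z))ᶜ hJ.isOpen_compl hzero
  exact hzer (hMAXP (NLF.CT μ) _ hcont hJ hdecay hd (hJUL f A μ hLF hrel))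

end PPS
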