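import Pool.Agent.helper36.PP.SpecL

/-! # Project pp (MP_70a088_an): module REL: the functional equation of the Cauchy transform -/

set_option autoImplicit false

open Complex Metric Set Filter Topology MeasureTheory MPS MQ Pool.Agent.helper98.ILF

noncomputable section

namespace PPS

/-- A bounded form with bounded support times a polynomial is integrable. -/
theorem REL_int {f : Polynomial ℂ} {A : ℝ} {μ : ℂ → ℂ} (hLF : LF f A μ) (P : Polynomial ℂ) :
    Integrable (fun z => μ z * P.eval z) := by
  have hc : Continuous fun z : ℂ => ‖P.eval z‖ := P.continuous.norm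
  have hi : Integrable ((closedBall (0 : ℂ) A).indicator fun z : ℂ => ‖P.eval z‖) :=
    (hc.continuousOn.integrableOn_compact (isCompact_closedBall (0 : ℂ) A)).integrable_indicator
      isClosed_closedBall.measurableSet
  refine hi.mono' ?_ ?_
  · exact (hLF.meas.mul P.continuous.measurable).aestronglyMeasurable
  · refine Filter.Eventually.of_forall fun z => ?_
    by_cases hz : μ z = 0
    · rw [hz, zero_mul, norm_zero]
      exact Set.indicator_nonneg (fun _ _ => norm_nonneg _) z
    · have hzA : z ∈ closedBall (0 : ℂ) A := by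
        rw [mem_closedBall, dist_zero_right]
        exact (hLF.supp z hz).le
      rw [Set.indicator_of_mem hzA, norm_mul]
      calc ‖μ z‖ * ‖P.eval z‖ ≤ 1 * ‖P.eval z‖ :=
            mul_le_mul_of_nonneg_right (hLF.bd z) (norm_nonneg _)
        _ = ‖P.eval z‖ := one_mul _

theorem REL_ne (a : ℂ) : ∀ᵐ z : ℂ, z ≠ a := by
  rw [ae_iff]
  simp

theorem REL_cv {f : Polynomial ℂ} (hfin : (CV f).Finite) : ∀ᵐ z : ℂ, z ∉ CV f := by
  rw [ae_iff]
  simp only [not_not]
  exact hfin.measure_zero volume

theorem REL (hIP : IP_stmt) (hCTA : CTA_stmt) (hPF : PF_stmt) (hPRB : PRB_stmt) : REL_stmt := by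
  intro f A μ hn hLF b
  have hn1 : 1 ≤ f.natDegree := by omega
  obtain ⟨hint, -, -, -, -, -⟩ := hCTA μ A hLF.meas hLF.bd hLF.supp
  obtain ⟨hpre, -, -, -, hfin, -⟩ := hPRB f hn1
  set Kb : Polynomial ℂ := f.derivative /ₘ (Polynomial.X - Polynomial.C b) with hKb
  have hdec : ∀ y : ℂ, fd f y = fd f b + (y - b) * Kb.eval y := by
    intro y
    have h1 := Polynomial.modByMonic_add_div f.derivative (Polynomial.X - Polynomial.C b)
    rw [Polynomial.modByMonic_X_sub_C_eq_C_eval] at h1
    have h2 := congrArg (Polynomial.eval y) h1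
    rw [Polynomial.eval_add, Polynomial.eval_C, Polynomial.eval_mul, Polynomial.eval_sub,
      Polynomial.eval_X, Polynomial.eval_C] at h2
    exact h2.symm
  have hq : ∀ᵐ y : ℂ, μ y * (fd f y / (y - b)) = fd f b * (μ y / (y - b)) + μ y * Kb.eval y := by
    filter_upwards [REL_ne b] with y hy
    have hy' : y - b ≠ 0 := sub_ne_zero.mpr hy
    rw [hdec y]
    field_simp
  have hI2 : Integrable (fun y => fd f b * (μ y / (y - b)) + μ y * Kb.eval y) :=
    ((hint b).const_mul _).add (REL_int hLF Kb)
  have hset : {y : ℂ | f.eval y ∈ (univ : Set ℂ)} = univ := by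
    ext y
    simp
  obtain ⟨-, h2⟩ := hIP f A μ hn1 hLF (fun y => fd f y / (y - b)) univ
    (f.derivative.continuous.measurable.div (measurable_id.sub_const b)) MeasurableSet.univ (by
      rw [hset, integrableOn_univ]
      exact hI2.congr (hq.mono fun y hy => hy.symm))
  rw [hset, setIntegral_univ, setIntegral_univ] at h2
  have h3 : (fun z => μ z * TT f (fun y => fd f y / (y - b)) z) =ᵐ[volume]
      fun z => μ z / (z - f.eval b) := by
    filter_upwards [REL_cv hfin, REL_ne (f.eval b)] with z hz1 hz2
    have h4 := (hPF f hn1 z hz1 b (fun h => hz2 h.symm)).1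
    have h5 : TT f (fun y => fd f y / (y - b)) z
        = ((pre f z).map fun y => 1 / ((y - b) * fd f y)).sum := by
      unfold TT
      congr 1
      refine Multiset.map_congr rfl fun y hy => ?_
      have hy1 : f.eval y = z := (hpre z y).1 hy
      have hy2 : fd f y ≠ 0 := fun h => hz1 ⟨y, h, hy1⟩
      have hy3 : y - b ≠ 0 := by
        intro h
        apply hz2
        rw [← hy1, sub_eq_zero.mp h]
      field_simp
    rw [h5, h4, mul_one_div]
  rw [integral_congr_ae h3, integral_congr_ae hq,
    integral_add ((hint b).const_mul _) (REL_int hLF Kb), integral_const_mul] at h2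
  have h6 : NLF.CT μ (f.eval b) = fd f b * NLF.CT μ b + ∫ z : ℂ, μ z * Kb.eval z := h2
  rw [h6]
  ring

end PPS
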