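import Pool.Agent.helper36.PP.SpecE

/-! # Project pp (MP_70a088_an): module ZLP: the logarithmic derivative of the multiplier -/

set_option autoImplicit false

open Complex Metric Set Filter Topology MeasureTheory MPS MQ

noncomputable section

namespace PPS

theorem ZLP : ZLP_stmt := by
  intro k _ f u r b g hr hd hstep hne hex
  have h0 : (0 : ℂ) ∈ ball (0 : ℂ) r := mem_ball_self hr
  have hnh : ball (0 : ℂ) r ∈ 𝓝 (0 : ℂ) := isOpen_ball.mem_nhds h0
  have hdat : ∀ i, DifferentiableAt ℂ (fun t => b t i) 0 :=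
    fun i => (hd i).differentiableAt hnh
  set b' : ZMod k → ℂ := fun i => deriv (fun t => b t i) 0 with hb'
  have hD : ∀ i, HasDerivAt (fun t => b t i) (b' i) 0 := fun i => (hdat i).hasDerivAt
  have hev : ∀ (p : Polynomial ℂ) (i : ZMod k),
      HasDerivAt (fun t => p.eval (b t i)) (p.derivative.eval (b 0 i) * b' i) 0 :=
    fun p i => HasDerivAt.comp (h₂ := fun z => p.eval z) (0 : ℂ) (p.hasDerivAt (b 0 i)) (hD i)
  -- f + t u along the points
  have hcomb : ∀ (p q : Polynomial ℂ) (i : ZMod k),
      HasDerivAt (fun t : ℂ => (p + Polynomial.C t * q).eval (b t i))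
        (p.derivative.eval (b 0 i) * b' i + q.eval (b 0 i)) 0 := by
    intro p q i
    have h1 : HasDerivAt (fun t : ℂ => p.eval (b t i) + t * q.eval (b t i))
        (p.derivative.eval (b 0 i) * b' i +
          (1 * q.eval (b 0 i) + 0 * (q.derivative.eval (b 0 i) * b' i))) 0 :=
      (hev p i).add ((hasDerivAt_id (0 : ℂ)).mul (hev q i))
    have h2 : (fun t : ℂ => (p + Polynomial.C t * q).eval (b t i))
        = fun t : ℂ => p.eval (b t i) + t * q.eval (b t i) := by
      funext t
      rw [Polynomial.eval_add, Polynomial.eval_mul, Polynomial.eval_C]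
    rw [h2]
    refine h1.congr_deriv ?_
    ring
  have hb1 : ∀ i, b' (i + 1) = fd f (b 0 i) * b' i + u.eval (b 0 i) := by
    intro i
    have h2 : (fun t : ℂ => (f + Polynomial.C t * u).eval (b t i)) =ᶠ[𝓝 0]
        fun t => b t (i + 1) := by
      filter_upwards [hnh] with t ht
      exact hstep t ht i
    exact (hD (i + 1)).unique ((hcomb f u i).congr_of_eventuallyEq h2.symm)
  have hfd : ∀ i, HasDerivAt (fun t : ℂ => fd (f + Polynomial.C t * u) (b t i))
      (fdd f (b 0 i) * b' i + u.derivative.eval (b 0 i)) 0 := by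
    intro i
    have h1 := hcomb f.derivative u.derivative i
    have h2 : (fun t : ℂ => fd (f + Polynomial.C t * u) (b t i))
        = fun t : ℂ => (f.derivative + Polynomial.C t * u.derivative).eval (b t i) := by
      funext t
      unfold fd
      rw [Polynomial.derivative_add, Polynomial.derivative_C_mul]
    rw [h2]
    exact h1
  have hfd0 : ∀ i, fd (f + Polynomial.C 0 * u) (b 0 i) = fd f (b 0 i) := by
    intro i
    rw [Polynomial.C_0, zero_mul, add_zero]
  have hfne : ∀ i, fd (f + Polynomial.C 0 * u) (b 0 i) ≠ 0 := by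
    intro i
    rw [hfd0]
    exact hne i
  have hrho0 : rho (f + Polynomial.C 0 * u) (b 0) = rho f (b 0) := by
    rw [Polynomial.C_0, zero_mul, add_zero]
  have hrho : (fun t : ℂ => rho (f + Polynomial.C t * u) (b t))
      = fun t => ∏ i : ZMod k, fd (f + Polynomial.C t * u) (b t i) := rfl
  have hdiff : DifferentiableAt ℂ (fun t : ℂ => rho (f + Polynomial.C t * u) (b t)) 0 := by
    rw [hrho]
    exact DifferentiableAt.fun_finsetProd fun i _ => (hfd i).differentiableAt
  refine ⟨hdiff, ?_⟩
  have h1 : deriv (fun t : ℂ => rho (f + Polynomial.C t * u) (b t)) 0 / rho f (b 0) =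
      ∑ i, (fdd f (b 0 i) * b' i + u.derivative.eval (b 0 i)) / fd f (b 0 i) := by
    have h2 := logDeriv_prod (s := (Finset.univ : Finset (ZMod k)))
      (f := fun i (t : ℂ) => fd (f + Polynomial.C t * u) (b t i)) (x := 0) (fun i _ => hfne i)
      (fun i _ => (hfd i).differentiableAt)
    rw [logDeriv_apply] at h2
    rw [hrho, ← hrho0]
    refine h2.trans (Finset.sum_congr rfl fun i _ => ?_)
    rw [logDeriv_apply, (hfd i).deriv, hfd0]
  rw [h1]
  have h4 : ∀ i, (fdd f (b 0 i) * b' i + u.derivative.eval (b 0 i)) / fd f (b 0 i) =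
      (g i * b' i - g (i + 1) * b' (i + 1)) +
        (u.derivative.eval (b 0 i) / fd f (b 0 i) + g (i + 1) * u.eval (b 0 i)) := by
    intro i
    have h5 := hex i
    have h6 := hne i
    have h7 := hb1 i
    have h8 : fdd f (b 0 i) / fd f (b 0 i) = g i - fd f (b 0 i) * g (i + 1) := by
      rw [h5]
      field_simp
      ring
    rw [h7, add_div, mul_div_right_comm, h8]
    ring
  rw [Finset.sum_congr rfl fun i _ => h4 i, Finset.sum_add_distrib, Finset.sum_sub_distrib]
  have h9 : ∑ i, g (i + 1) * b' (i + 1) = ∑ i, g i * b' i :=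
    Equiv.sum_comp (Equiv.addRight (1 : ZMod k)) fun i => g i * b' i
  rw [h9, sub_self, zero_add]

end PPS
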